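import Pool.Agent.H577.FD.Enc
import Pool.Agent.H47.FD577.STAR
import Pool.Agent.H355.FD577.LAM
import Pool.Agent.H580.FD577.DIV

set_option autoImplicit false

/-! # The bound for all solutions -/

namespace Pool.Agent.H577.FD

open Filter Finset

/-- `(X, Y, Z)` is a solution of `A X + B Y = C Z` with `gcd (X, Y) ≤ Q * rad (gcd (X, Y))`. -/
def IsSolution (A B C : ℕ) (Q : ℝ) (X Y Z : ℕ) : Prop :=
  A * X + B * Y = C * Z ∧
    ((Nat.gcd X Y : ℕ) : ℝ) ≤ Q * ((∏ q ∈ (Nat.gcd X Y).primeFactors, q : ℕ) : ℝ)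

theorem isSUnit_filter {S : Finset ℕ} {m : ℕ} (h : IsSUnit S m) :
    IsSUnit (S.filter Nat.Prime) m :=
  ⟨h.1, fun p hp hpm => Finset.mem_filter.2 ⟨h.2 p hp hpm, hp⟩⟩

/-- a function to a finite type is constant almost everywhere -/
theorem const_of_finite {α : Type*} [Finite α] (f : ℕ → α) :
    ∃ a, ∀ᶠ k in (hyperfilter ℕ : Filter ℕ), f k = a := by
  by_contra hcon
  push Not at hcon
  have h1 : ∀ᶠ k in (hyperfilter ℕ : Filter ℕ), ∀ a, f k ≠ a := Filter.eventually_all.2 hcon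
  obtain ⟨k, hk⟩ := h1.exists
  exact hk (f k) rfl

theorem bound (S : Finset ℕ) (r H N A B C : ℕ) (hA : 0 < A) (hB : 0 < B) (hC : 0 < C) (Q : ℝ) :
    ∃ M : ℝ, ∀ (b s : Fin 3 → ℕ) (l : Fin 3 → List ℕ) (R : Fin 3 → ℕ),
      (∀ w, IsProduct (b w) (s w) (l w)) → (∀ w, Shape S r H N (b w) (s w) (l w) (R w)) →
      IsSolution A B C Q (l 0).prod (l 1).prod (l 2).prod →
      ((l 2).prod : ℝ) ≤ M * (R 0 * R 1 * R 2) := by
  classical
  by_contra hcon
  push Not at hcon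
  choose b s l R hprod hshape hsol hviol using fun k : ℕ => hcon (k : ℝ)
  choose e ε v b' hv hb' hbe hH hval hR using
    fun k w => encode (hprod k w) (hshape k w)
  obtain ⟨⟨e₀, ε₀⟩, hsh⟩ := const_of_finite (fun k => ((e k, ε k) :
    (Fin 3 → Fin (N + 1) → Fin (N + 1)) × (Fin 3 → Fin (r + 1) → SignType)))
  have hsh' : ∀ᶠ k in (hyperfilter ℕ : Filter ℕ), e k = e₀ ∧ ε k = ε₀ := by
    filter_upwards [hsh] with k hk
    exact ⟨congrArg Prod.fst hk, congrArg Prod.snd hk⟩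
  obtain ⟨M, hM⟩ := core (r := r + 1) Pool.Agent.H47.FD577.star Pool.Agent.H355.FD577.lam
    Pool.Agent.H580.FD577.div Pool.Agent.H580.FD577.prop (S.filter Nat.Prime)
    (fun p hp => (Finset.mem_filter.1 hp).2) N (H + 1) A B C hA hB hC Q (fun w => dec (e₀ w))
    (fun w j => (ε₀ w j : ℤ)) (fun k x => v k x.1 x.2)
    (fun k x => isSUnit_filter (hv k x.1 x.2)) b' (by
      filter_upwards [hsh'] with k hk w
      obtain ⟨-, h2⟩ := hk
      have h3 := hbe k w
      have h4 := hH k w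
      rw [h2] at h3 h4
      exact ⟨hb' k w, h3, h4⟩) (by
      filter_upwards [hsh'] with k hk
      obtain ⟨h1, -⟩ := hk
      have h3 := (hsol k).1
      rw [hval k 0, hval k 1, hval k 2, h1] at h3
      exact h3) (by
      filter_upwards [hsh'] with k hk
      obtain ⟨h1, -⟩ := hk
      have h3 := (hsol k).2
      rw [hval k 0, hval k 1, h1] at h3
      exact h3)
  have hle : ∀ᶠ k : ℕ in (hyperfilter ℕ : Filter ℕ), M ≤ (k : ℝ) := by
    have h1 : ∀ᶠ k : ℕ in atTop, M ≤ (k : ℝ) := by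
      obtain ⟨n, hn⟩ := exists_nat_ge M
      filter_upwards [eventually_ge_atTop n] with k hk
      exact hn.trans (by exact_mod_cast hk)
    exact Nat.hyperfilter_le_atTop h1
  obtain ⟨k, ⟨h1, h2⟩, h3, h4⟩ := (hsh'.and (hM.and hle)).exists
  have h5 := hviol k
  rw [hval k 2, hR k 0, hR k 1, hR k 2, h1] at h5
  refine absurd h5 (not_lt.2 (h3.trans ?_))
  refine mul_le_mul_of_nonneg_right h4 (by positivity)

end Pool.Agent.H577.FD
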