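import Pool.Agent.H577.FD.Term

set_option autoImplicit false

/-! # The bound for one shape -/

namespace Pool.Agent.H577.FD

open Filter Finset Polynomial

variable {r : ℕ}

theorem eval_map_one (p : ℤ[X]) : (p.map (Int.castRingHom ℚ)).eval 1 = ((p.eval 1 : ℤ) : ℚ) := by
  rw [eval_map, eval₂_at_one]
  rfl

/-- the value of the base polynomial and of its derivative -/
theorem qpoly_spec (ε : Fin 3 → Fin r → ℤ) (u : ℕ → Fin 3 × Option (Fin r) → ℕ)
    (l : Fin 3 × Option (Fin r) → ℕ) (k : ℕ) (w : Fin 3) (b H : ℕ)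
    (hb : (b : ℤ) = ∑ j, ε w j * u k (w, some j))
    (hH : ∑ j, |ε w j| * u k (w, some j) ≤ H * b) :
    (qpoly ε u l k w).eval 1 = b ∧
      |(derivative (qpoly ε u l k w)).eval 1| ≤ ((∑ x, l x) * H : ℕ) * b := by
  unfold qpoly
  constructor
  · rw [eval_finsetSum, hb]
    simp
  · rw [derivative_sum, eval_finsetSum]
    have h1 : ∀ j : Fin r, (derivative (C (ε w j * (u k (w, some j) : ℤ)) *
        X ^ l (w, some j))).eval 1 = ε w j * u k (w, some j) * l (w, some j) := by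
      intro j
      rw [derivative_C_mul_X_pow]
      simp
    simp only [h1]
    refine (Finset.abs_sum_le_sum_abs _ _).trans ?_
    have h2 : ∀ j ∈ (Finset.univ : Finset (Fin r)),
        |ε w j * (u k (w, some j) : ℤ) * (l (w, some j) : ℤ)| ≤
          (∑ x, l x : ℕ) * (|ε w j| * u k (w, some j)) := by
      intro j _
      rw [abs_mul, abs_mul, Nat.abs_cast, Nat.abs_cast, mul_comm]
      refine mul_le_mul_of_nonneg_right ?_ (by positivity)
      have h3 : l (w, some j) ≤ ∑ x, l x :=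
        Finset.single_le_sum (f := l) (fun _ _ => Nat.zero_le _) (Finset.mem_univ _)
      exact_mod_cast h3
    refine (Finset.sum_le_sum h2).trans ?_
    rw [← Finset.mul_sum]
    push_cast
    rw [mul_assoc]
    exact mul_le_mul_of_nonneg_left hH (by positivity)

theorem core (hstar : S_STAR) (hlam : S_LAM) (hdiv : S_DIV) (hprop : S_PROP)
    (S : Finset ℕ) (hS : ∀ p ∈ S, p.Prime) (N H A B C' : ℕ) (hA : 0 < A) (hB : 0 < B) (hC : 0 < C')
    (Q : ℝ) (e : Fin 3 → ℕ → ℕ) (ε : Fin 3 → Fin r → ℤ) (u : ℕ → Fin 3 × Option (Fin r) → ℕ)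
    (hu : ∀ k j, IsSUnit S (u k j)) (b : ℕ → Fin 3 → ℕ)
    (hb : ∀ᶠ k in (hyperfilter ℕ : Filter ℕ), ∀ w, 0 < b k w ∧
      (b k w : ℤ) = ∑ j, ε w j * u k (w, some j) ∧
      ∑ j, |ε w j| * u k (w, some j) ≤ H * b k w)
    (heq : ∀ᶠ k in (hyperfilter ℕ : Filter ℕ),
      A * val N (e 0) (u k (0, none)) (b k 0) + B * val N (e 1) (u k (1, none)) (b k 1) =
        C' * val N (e 2) (u k (2, none)) (b k 2))
    (hg : ∀ᶠ k in (hyperfilter ℕ : Filter ℕ),
      (Nat.gcd (val N (e 0) (u k (0, none)) (b k 0)) (val N (e 1) (u k (1, none)) (b k 1)) : ℝ) ≤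
        Q * ((∏ p ∈ (Nat.gcd (val N (e 0) (u k (0, none)) (b k 0))
          (val N (e 1) (u k (1, none)) (b k 1))).primeFactors, p : ℕ) : ℝ)) :
    ∃ M : ℝ, ∀ᶠ k in (hyperfilter ℕ : Filter ℕ),
      (val N (e 2) (u k (2, none)) (b k 2) : ℝ) ≤
        M * (rpart N (e 0) (b k 0) * rpart N (e 1) (b k 1) * rpart N (e 2) (b k 2)) := by
  classical
  obtain ⟨T, hT⟩ : ∃ T, T = term N e ε := ⟨_, rfl⟩
  obtain ⟨f, hf⟩ : ∃ f, f = MvPolynomial.C (A : ℚ) * T 0 + MvPolynomial.C (B : ℚ) * T 1 -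
    MvPolynomial.C (C' : ℚ) * T 2 := ⟨_, rfl⟩
  obtain ⟨F, hF⟩ : ∃ F, F = (T 0).support ∪ (T 1).support ∪ (T 2).support ∪ f.support ∪
    sumSupp (T 0) (T 1) := ⟨_, rfl⟩
  obtain ⟨l, hl⟩ := hlam S u hu F
  have good : Good u F l := ⟨fun k j => (hu k j).1,
    fun G c hG hc h => hstar S u hu G c hG hc h, hl⟩
  obtain ⟨tp, htp⟩ : ∃ tp : ℕ → Fin 3 → ℤ[X], tp = fun k w =>
    tpoly (range (N + 1)) (e w) (u k (w, none)) (l (w, none)) (qpoly ε u l k w) := ⟨_, rfl⟩
  have hphi : ∀ k w, phi u l k (T w) = (tp k w).map (Int.castRingHom ℚ) := by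
    intro k w
    rw [hT, htp]
    exact phi_term N e ε u l k w
  obtain ⟨K, hK⟩ : ∃ K : ℕ, K = (∑ x, l x) * H := ⟨_, rfl⟩
  have hspec : ∀ᶠ k in (hyperfilter ℕ : Filter ℕ), ∀ w,
      (tp k w).eval 1 = (val N (e w) (u k (w, none)) (b k w) : ℤ) ∧
      ((gpart N (e w) (u k (w, none)) (b k w) : ℕ) : ℤ) ∣ (derivative (tp k w)).eval 1 ∧
      |(derivative (tp k w)).eval 1| ≤ ((l (w, none) + K * ∑ a ∈ range (N + 1), e w a : ℕ) : ℤ) *
        (val N (e w) (u k (w, none)) (b k w) : ℤ) := by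
    filter_upwards [hb] with k hk w
    obtain ⟨h1, h2, h3⟩ := hk w
    obtain ⟨h4, h5⟩ := qpoly_spec ε u l k w (b k w) H h2 h3
    rw [← hK] at h5
    have h6 := tpoly_spec (range (N + 1)) (e w) (u k (w, none)) (l (w, none)) (b k w) K
      (qpoly ε u l k w) h4 h5
    rw [htp]
    exact h6
  -- the equation for the polynomials
  have hpoly : ∀ᶠ k in (hyperfilter ℕ : Filter ℕ), phi u l k f = 0 := by
    refine phi_zero good f (by rw [hF]; intro m hm; simp [hm]) ?_
    filter_upwards [hspec, heq] with k hk hk2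
    rw [hf, map_sub, map_add, map_mul, map_mul, map_mul, hphi, hphi, hphi]
    have hC1 : ∀ x : ℚ, (phi u l k (MvPolynomial.C x)).eval 1 = x := by
      intro x
      unfold phi
      rw [MvPolynomial.aeval_C]
      exact eval_C
    rw [eval_sub, eval_add, eval_mul, eval_mul, eval_mul, hC1, hC1, hC1, eval_map_one,
      eval_map_one, eval_map_one, (hk 0).1, (hk 1).1, (hk 2).1, sub_eq_zero]
    exact_mod_cast hk2
  have hder : ∀ᶠ k in (hyperfilter ℕ : Filter ℕ), (A : ℤ) * (derivative (tp k 0)).eval 1 +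
      B * (derivative (tp k 1)).eval 1 = C' * (derivative (tp k 2)).eval 1 := by
    filter_upwards [hpoly] with k hk
    have hCx : ∀ x : ℚ, phi u l k (MvPolynomial.C x) = C x := by
      intro x
      unfold phi
      rw [MvPolynomial.aeval_C]
      rfl
    rw [hf, map_sub, map_add, map_mul, map_mul, map_mul, hphi, hphi, hphi, hCx, hCx, hCx] at hk
    have h1 := congrArg (fun p => (derivative p).eval 1) hk
    simp only [derivative_sub, derivative_add, derivative_C_mul, derivative_map, eval_sub,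
      eval_add, eval_C_mul, derivative_zero, eval_zero, eval_map_one] at h1
    have h2 : ((A : ℤ) * (derivative (tp k 0)).eval 1 + B * (derivative (tp k 1)).eval 1 -
      C' * (derivative (tp k 2)).eval 1 : ℤ) = 0 := by exact_mod_cast h1
    linarith
  obtain ⟨s, hs⟩ : ∃ s : ℕ, s = ∏ p ∈ S, p := ⟨_, rfl⟩
  obtain ⟨L, hL⟩ : ∃ L : ℕ, L = ∑ w : Fin 3, (l (w, none) + K * ∑ a ∈ range (N + 1), e w a) :=
    ⟨_, rfl⟩
  have hLw : ∀ w : Fin 3, l (w, none) + K * ∑ a ∈ range (N + 1), e w a ≤ L := by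
    intro w
    rw [hL]
    exact Finset.single_le_sum (f := fun w : Fin 3 => l (w, none) +
      K * ∑ a ∈ range (N + 1), e w a) (fun _ _ => Nat.zero_le _) (Finset.mem_univ w)
  have hR0 : ∀ᶠ k in (hyperfilter ℕ : Filter ℕ), (phi u l k (T 1)).eval 1 ≠ 0 := by
    filter_upwards [hspec, hb] with k hk hkb
    rw [hphi, eval_map_one, (hk 1).1]
    have := val_pos (N := N) (e := e 1) (hu k (1, none)).1 (hkb 1).1
    exact_mod_cast this.ne'
  rcases wronskian_alt good (T 0) (T 1) (by rw [hF]; intro m hm; simp [hm])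
    (by rw [hF]; intro m hm; simp [hm])
    ((support_wr l (T 0) (T 1)).trans (by rw [hF]; exact Finset.subset_union_right)) hR0 with
    hW | ⟨c, hc⟩
  · refine ⟨2 * A * B * C' * L * Q * s, ?_⟩
    filter_upwards [hW, hspec, hb, heq, hg, hder] with k h1 h2 h3 h4 h5 h6
    rw [hphi, hphi, derivative_map, derivative_map, eval_map_one, eval_map_one, eval_map_one,
      eval_map_one, (h2 0).1, (h2 1).1] at h1
    have hbound : ∀ w, |(((derivative (tp k w)).eval 1 : ℤ) : ℝ)| ≤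
        (L : ℝ) * (val N (e w) (u k (w, none)) (b k w) : ℝ) := by
      intro w
      have h7 := (h2 w).2.2
      have h8 : |(((derivative (tp k w)).eval 1 : ℤ) : ℝ)| ≤
          ((l (w, none) + K * ∑ a ∈ range (N + 1), e w a : ℕ) : ℝ) *
          (val N (e w) (u k (w, none)) (b k w) : ℝ) := by exact_mod_cast h7
      refine h8.trans (mul_le_mul_of_nonneg_right ?_ (Nat.cast_nonneg _))
      exact_mod_cast hLw w
    exact hdiv A B C' _ _ _ _ _ _ _ _ _ s _ _ _ L Q S hA hB hC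
      (val_pos (hu k (0, none)).1 (h3 0).1) (val_pos (hu k (1, none)).1 (h3 1).1)
      (val_pos (hu k (2, none)).1 (h3 2).1) hS hs h4 h6 (val_eq N (e 0) _ _) (val_eq N (e 1) _ _)
      (val_eq N (e 2) _ _) (h2 0).2.1 (h2 1).2.1 (h2 2).2.1
      (fun p hp h hpS => prime_dvd_val (hu k (0, none)) hp h hpS)
      (fun p hp h hpS => prime_dvd_val (hu k (1, none)) hp h hpS) h5 (Nat.cast_nonneg _)
      (hbound 0) (hbound 1) (hbound 2) (by exact_mod_cast h1)
  · obtain ⟨a, ha⟩ : ∃ a : ℕ, a = c.num.natAbs := ⟨_, rfl⟩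
    obtain ⟨d, hd⟩ : ∃ d : ℕ, d = c.den := ⟨_, rfl⟩
    refine ⟨(A + B * d) * (a * Q * s), ?_⟩
    filter_upwards [hc, hspec, hb, heq, hg] with k h1 h2 h3 h4 h5
    rw [hphi, hphi, eval_map_one, eval_map_one, (h2 0).1, (h2 1).1] at h1
    obtain ⟨X₀, hX₀⟩ : ∃ x, x = val N (e 0) (u k (0, none)) (b k 0) := ⟨_, rfl⟩
    obtain ⟨Y₀, hY₀⟩ : ∃ x, x = val N (e 1) (u k (1, none)) (b k 1) := ⟨_, rfl⟩
    obtain ⟨Z₀, hZ₀⟩ : ∃ x, x = val N (e 2) (u k (2, none)) (b k 2) := ⟨_, rfl⟩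
    have hX0 : 0 < X₀ := by rw [hX₀]; exact val_pos (hu k (0, none)).1 (h3 0).1
    have hY0 : 0 < Y₀ := by rw [hY₀]; exact val_pos (hu k (1, none)).1 (h3 1).1
    have hR0' : 0 < rpart N (e 0) (b k 0) := rpart_pos (h3 0).1
    have hR1' : 0 < rpart N (e 1) (b k 1) := rpart_pos (h3 1).1
    have hR2' : 0 < rpart N (e 2) (b k 2) := rpart_pos (h3 2).1
    have hpd : ∀ p : ℕ, p.Prime → p ∣ X₀ → p ∉ S → p ∣ rpart N (e 0) (b k 0) := by
      intro p hp h hpS
      rw [hX₀] at h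
      exact prime_dvd_val (hu k (0, none)) hp h hpS
    rw [← hX₀, ← hY₀] at h1 h5 
    rw [← hX₀, ← hY₀, ← hZ₀] at h4
    rw [← hZ₀]
    have hcpos : 0 < c := by
      have h6 : (0 : ℚ) < X₀ := by exact_mod_cast hX0
      have h7 : (0 : ℚ) < Y₀ := by exact_mod_cast hY0
      have h8 : (X₀ : ℚ) = c * Y₀ := by exact_mod_cast h1
      by_contra h9
      push Not at h9
      have := mul_nonpos_of_nonpos_of_nonneg h9 h7.le
      linarith
    have hnum : (c.num.natAbs : ℤ) = c.num := Int.natAbs_of_nonneg (Rat.num_pos.2 hcpos).le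
    have ha0 : 0 < a := by
      rw [ha]
      exact Int.natAbs_pos.2 (Rat.num_pos.2 hcpos).ne'
    have hd0 : 0 < d := by rw [hd]; exact c.den_pos
    have hcop : Nat.Coprime a d := by rw [ha, hd]; exact c.reduced
    have hprp : d * X₀ = a * Y₀ := by
      have h6 : (X₀ : ℚ) = c * Y₀ := by exact_mod_cast h1
      have h7 : (c : ℚ) * d = a := by
        rw [ha, hd, ← Int.cast_natCast (R := ℚ) c.num.natAbs, hnum]
        exact Rat.mul_den_eq_num c
      have h8 : ((d * X₀ : ℕ) : ℚ) = ((a * Y₀ : ℕ) : ℚ) := by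
        push_cast
        rw [h6, ← h7]
        ring
      exact_mod_cast h8
    have h9 := hprop a d X₀ Y₀ (rpart N (e 0) (b k 0)) s Q S ha0 hd0 hcop hX0 hY0 hprp hS hs hR0'
      hpd h5
    have h10 : Y₀ ≤ d * X₀ := by
      rw [hprp]
      exact Nat.le_mul_of_pos_left _ ha0
    have h11 : Z₀ ≤ (A + B * d) * X₀ := by
      calc Z₀ ≤ C' * Z₀ := Nat.le_mul_of_pos_left _ hC
        _ = A * X₀ + B * Y₀ := h4.symm
        _ ≤ A * X₀ + B * (d * X₀) := by gcongr
        _ = _ := by ring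
    have h12 : (Z₀ : ℝ) ≤ (A + B * d) * X₀ := by exact_mod_cast h11
    have hX0' : (0 : ℝ) < X₀ := by exact_mod_cast hX0
    have h13 : 0 ≤ (a : ℝ) * Q * s * rpart N (e 0) (b k 0) := hX0'.le.trans h9
    have h14 : (1 : ℝ) ≤ rpart N (e 1) (b k 1) * rpart N (e 2) (b k 2) := by
      exact_mod_cast Nat.mul_pos hR1' hR2'
    calc (Z₀ : ℝ) ≤ (A + B * d) * X₀ := h12
      _ ≤ (A + B * d) * (a * Q * s * rpart N (e 0) (b k 0)) := by
          exact mul_le_mul_of_nonneg_left h9 (by positivity)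
      _ ≤ (A + B * d) * (a * Q * s * rpart N (e 0) (b k 0)) *
          (rpart N (e 1) (b k 1) * rpart N (e 2) (b k 2)) := by
          exact le_mul_of_one_le_right (mul_nonneg (by positivity) h13) h14
      _ = _ := by ring

end Pool.Agent.H577.FD
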