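import Pool.Agent.H577.FD.Core

set_option autoImplicit false

/-! # Encoding of the products -/

namespace Pool.Agent.H577.FD

open Filter Finset

/-- The list `l` is a product with base (smallest member) `b` and spread `s`. -/
def IsProduct (b s : ℕ) (l : List ℕ) : Prop :=
  0 < b ∧ b ∈ l ∧ b + s ∈ l ∧ ∀ x ∈ l, b ≤ x ∧ x ≤ b + s

/-- `b` is a sum of at most `r` numbers `± v`, where the `v` are positive integers composed of the
primes of `S` and the sum of the `v` is at most `H b`. -/
def FewTerms (S : Finset ℕ) (r H b : ℕ) : Prop :=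
  ∃ (ε : Fin r → ℤ) (v : Fin r → ℕ), (∀ j, ε j = 0 ∨ ε j = 1 ∨ ε j = -1) ∧
    (∀ j, IsSUnit S (v j)) ∧ (b : ℤ) = ∑ j, ε j * v j ∧ ∑ j, |ε j| * v j ≤ H * b

/-- either the product is composed of the primes of `S`, and `R = 1`, or its degree and its spread
are at most `N` and its base has few terms, and `R` is the product of its different members -/
def Shape (S : Finset ℕ) (r H N b s : ℕ) (l : List ℕ) (R : ℕ) : Prop :=
  (IsSUnit S l.prod ∧ R = 1) ∨
    (l.length ≤ N ∧ s ≤ N ∧ FewTerms S r H b ∧ R = ∏ x ∈ l.toFinset, x)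

/-- exponents from a finite type -/
def dec {N : ℕ} (e : Fin (N + 1) → Fin (N + 1)) (a : ℕ) : ℕ :=
  if h : a < N + 1 then (e ⟨a, h⟩ : ℕ) else 0

theorem isSUnit_one (S : Finset ℕ) : IsSUnit S 1 :=
  ⟨one_pos, fun _ hp h => absurd (Nat.dvd_one.1 h) hp.one_lt.ne'⟩

theorem encode {S : Finset ℕ} {r H N b s R : ℕ} {l : List ℕ} (hl : IsProduct b s l)
    (h : Shape S r H N b s l R) :
    ∃ (e : Fin (N + 1) → Fin (N + 1)) (ε : Fin (r + 1) → SignType) (v : Option (Fin (r + 1)) → ℕ)
      (b' : ℕ), (∀ j, IsSUnit S (v j)) ∧ 0 < b' ∧ (b' : ℤ) = ∑ j, (ε j : ℤ) * v (some j) ∧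
      ∑ j, |(ε j : ℤ)| * v (some j) ≤ (H + 1 : ℕ) * b' ∧ l.prod = val N (dec e) (v none) b' ∧
      R = rpart N (dec e) b' := by
  classical
  rcases h with ⟨h1, h2⟩ | ⟨h1, h2, h3, h4⟩
  · refine ⟨fun _ => 0, Fin.cons 1 (fun _ => 0), fun j => j.elim l.prod (fun _ => 1), 1, ?_,
      one_pos, ?_, ?_, ?_, ?_⟩
    · intro j
      cases j with
      | none => exact h1
      | some j => exact isSUnit_one S
    · rw [Fin.sum_univ_succ]
      simp
    · rw [Fin.sum_univ_succ]
      simp
    · unfold val
      rw [Finset.prod_eq_one, mul_one]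
      · rfl
      · intro a _
        unfold dec
        split_ifs <;> simp
    · unfold rpart
      rw [Finset.prod_eq_one, h2]
      intro a _
      unfold dec
      split_ifs <;> simp
  · obtain ⟨ε, v, hε, hv, hb, hH⟩ := h3
    have hcount : ∀ x, l.count x < N + 1 := fun x =>
      Nat.lt_succ_of_le ((List.count_le_length (a := x) (l := l)).trans h1)
    have hdec : ∀ a ∈ Finset.range (N + 1),
        dec (fun a : Fin (N + 1) => (⟨l.count (b + a), hcount _⟩ : Fin (N + 1))) a =
          l.count (b + a) := by
      intro a ha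
      unfold dec
      rw [dif_pos (Finset.mem_range.1 ha)]
    have hinj : ∀ x ∈ Finset.range (N + 1), ∀ y ∈ Finset.range (N + 1), b + x = b + y → x = y := by
      intro x _ y _ hxy
      omega
    have hsub : l.toFinset ⊆ (Finset.range (N + 1)).image (fun a => b + a) := by
      intro x hx
      rw [List.mem_toFinset] at hx
      obtain ⟨h5, h6⟩ := hl.2.2.2 x hx
      rw [Finset.mem_image]
      exact ⟨x - b, Finset.mem_range.2 (by omega), by omega⟩
    refine ⟨fun a => ⟨l.count (b + a), hcount _⟩, Fin.cons 0 (fun j => SignType.sign (ε j)),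
      fun j => j.elim 1 (Fin.cons 1 v), b, ?_, hl.1, ?_, ?_, ?_, ?_⟩
    · intro j
      cases j with
      | none => exact isSUnit_one S
      | some j =>
        refine Fin.cases ?_ ?_ j
        · exact isSUnit_one S
        · intro i
          exact hv i
    · rw [Fin.sum_univ_succ, hb]
      simp only [Fin.cons_zero, Fin.cons_succ, SignType.coe_zero, zero_mul, zero_add,
        Option.elim_some]
      refine Finset.sum_congr rfl fun j _ => ?_
      congr 1
      rcases hε j with h | h | h <;> rw [h] <;> simp
    · rw [Fin.sum_univ_succ]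
      simp only [Fin.cons_zero, Fin.cons_succ, SignType.coe_zero, abs_zero, zero_mul, zero_add,
        Option.elim_some]
      have h7 : ∑ j, |((SignType.sign (ε j) : SignType) : ℤ)| * (v j : ℤ) =
          ∑ j, |ε j| * (v j : ℤ) := by
        refine Finset.sum_congr rfl fun j _ => ?_
        congr 2
        rcases hε j with h | h | h <;> rw [h] <;> simp
      rw [h7]
      refine hH.trans ?_
      push_cast
      have : (0 : ℤ) ≤ b := Int.natCast_nonneg _
      nlinarith
    · unfold val
      change l.prod = 1 * _
      rw [one_mul, Finset.prod_list_count_of_subset l _ hsub, Finset.prod_image hinj]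
      exact Finset.prod_congr rfl fun a ha => by rw [hdec a ha]
    · unfold rpart
      rw [h4]
      have h8 : ∏ x ∈ l.toFinset, x =
          ∏ x ∈ (Finset.range (N + 1)).image (fun a => b + a), x ^ min (l.count x) 1 := by
        rw [← Finset.prod_subset hsub]
        · refine Finset.prod_congr rfl fun x hx => ?_
          rw [List.mem_toFinset] at hx
          have := List.count_pos_iff.2 hx
          rw [show min (l.count x) 1 = 1 by omega, pow_one]
        · intro x _ hx
          rw [List.mem_toFinset] at hx
          rw [List.count_eq_zero.2 hx]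
          simp
      rw [h8, Finset.prod_image hinj]
      exact Finset.prod_congr rfl fun a ha => by rw [hdec a ha]

end Pool.Agent.H577.FD
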