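import Pool.Agent.H577.FD.Stm

set_option autoImplicit false

/-! # From vanishing values to vanishing polynomials -/

namespace Pool.Agent.H577.FD

open Filter Finset Polynomial

variable {σ : Type} [Fintype σ]

/-- the specialisation `x_j ↦ u_j(k) T^(l_j)` -/
noncomputable def phi (u : ℕ → σ → ℕ) (l : σ → ℕ) (k : ℕ) : MvPolynomial σ ℚ →ₐ[ℚ] ℚ[X] :=
  MvPolynomial.aeval (fun j => C (u k j : ℚ) * X ^ l j)

theorem phi_monomial (u : ℕ → σ → ℕ) (l : σ → ℕ) (k : ℕ) (m : σ →₀ ℕ) (c : ℚ) :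
    phi u l k (MvPolynomial.monomial m c) = C (c * mon u m k) * X ^ wt l m := by
  classical
  unfold phi mon wt
  rw [MvPolynomial.aeval_monomial, Finsupp.prod_fintype _ _ (by simp)]
  simp only [mul_pow, ← pow_mul]
  rw [Finset.prod_mul_distrib, Finset.prod_pow_eq_pow_sum, C_mul, map_prod]
  simp only [map_pow]
  rw [show algebraMap ℚ ℚ[X] c = C c from rfl, mul_assoc]

theorem phi_eq (u : ℕ → σ → ℕ) (l : σ → ℕ) (k : ℕ) (f : MvPolynomial σ ℚ) :
    phi u l k f = ∑ m ∈ f.support, C (f.coeff m * mon u m k) * X ^ wt l m := by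
  conv_lhs => rw [f.as_sum]
  rw [map_sum]
  exact Finset.sum_congr rfl fun m _ => phi_monomial u l k m _

theorem coeff_phi (u : ℕ → σ → ℕ) (l : σ → ℕ) (k : ℕ) (f : MvPolynomial σ ℚ) (n : ℕ) :
    (phi u l k f).coeff n =
      ∑ m ∈ f.support.filter (fun m => wt l m = n), f.coeff m * mon u m k := by
  rw [phi_eq, finsetSum_coeff, Finset.sum_filter]
  refine Finset.sum_congr rfl fun m _ => ?_
  rw [coeff_C_mul_X_pow]
  by_cases h : wt l m = n
  · rw [if_pos h.symm, if_pos h]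
  · rw [if_neg (fun h' => h h'.symm), if_neg h]

theorem eval_phi (u : ℕ → σ → ℕ) (l : σ → ℕ) (k : ℕ) (f : MvPolynomial σ ℚ) :
    (phi u l k f).eval 1 = ∑ m ∈ f.support, f.coeff m * mon u m k := by
  rw [phi_eq, eval_finsetSum]
  simp

theorem eval_phi' (u : ℕ → σ → ℕ) (l : σ → ℕ) (k : ℕ) (f : MvPolynomial σ ℚ) :
    (phi u l k f).eval 1 = MvPolynomial.eval (fun j => (u k j : ℚ)) f := by
  rw [eval_phi, MvPolynomial.eval_eq']
  rfl

/-- the data: points with the property of vanishing sums, a finite set of monomials and weights -/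
structure Good (u : ℕ → σ → ℕ) (F : Finset (σ →₀ ℕ)) (l : σ → ℕ) : Prop where
  pos : ∀ k j, 0 < u k j
  star : ∀ (G : Finset (σ →₀ ℕ)) (c : (σ →₀ ℕ) → ℚ), G.Nonempty → (∀ m ∈ G, c m ≠ 0) →
    (∀ᶠ k in (hyperfilter ℕ : Filter ℕ), ∑ m ∈ G, c m * mon u m k = 0) →
    ∃ m ∈ G, ∃ m' ∈ G, m ≠ m' ∧ Rel u m m'
  wt : ∀ m ∈ F, ∀ m' ∈ F, (wt l m = wt l m' ↔ Rel u m m')

theorem mon_pos {u : ℕ → σ → ℕ} (h : ∀ k j, 0 < u k j) (m : σ →₀ ℕ) (k : ℕ) : 0 < mon u m k := by
  unfold mon
  refine Finset.prod_pos fun j _ => pow_pos ?_ _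
  exact_mod_cast h k j

/-- each coefficient is a constant multiple of a monomial, for almost all `k` -/
theorem coeff_form {u : ℕ → σ → ℕ} {F : Finset (σ →₀ ℕ)} {l : σ → ℕ} (h : Good u F l)
    (f : MvPolynomial σ ℚ) (hf : f.support ⊆ F) (m₀ : σ →₀ ℕ) (hm₀ : m₀ ∈ F) :
    ∃ c : ℚ, ∀ᶠ k in (hyperfilter ℕ : Filter ℕ),
      (phi u l k f).coeff (wt l m₀) = c * mon u m₀ k := by
  classical
  have h1 : ∀ m ∈ f.support.filter (fun m => wt l m = wt l m₀), ∃ ρ : ℚ,
      ∀ᶠ k in (hyperfilter ℕ : Filter ℕ), mon u m k = ρ * mon u m₀ k := by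
    intro m hm
    rw [Finset.mem_filter] at hm
    exact (h.wt m (hf hm.1) m₀ hm₀).1 hm.2
  choose! ρ hρ using h1
  refine ⟨∑ m ∈ f.support.filter (fun m => wt l m = wt l m₀), f.coeff m * ρ m, ?_⟩
  have h2 : ∀ᶠ k in (hyperfilter ℕ : Filter ℕ), ∀ m ∈ f.support.filter
      (fun m => wt l m = wt l m₀), mon u m k = ρ m * mon u m₀ k :=
    (Filter.eventually_all_finset _).2 hρ
  filter_upwards [h2] with k hk
  rw [coeff_phi, Finset.sum_mul]
  refine Finset.sum_congr rfl fun m hm => ?_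
  rw [hk m hm, mul_assoc]

/-- vanishing values give vanishing polynomials -/
theorem phi_zero {u : ℕ → σ → ℕ} {F : Finset (σ →₀ ℕ)} {l : σ → ℕ} (h : Good u F l)
    (f : MvPolynomial σ ℚ) (hf : f.support ⊆ F)
    (h0 : ∀ᶠ k in (hyperfilter ℕ : Filter ℕ), (phi u l k f).eval 1 = 0) :
    ∀ᶠ k in (hyperfilter ℕ : Filter ℕ), phi u l k f = 0 := by
  classical
  -- representatives of the weights
  set N : Finset ℕ := f.support.image (wt l) with hN
  have h1 : ∀ n ∈ N, ∃ m, m ∈ f.support ∧ wt l m = n := by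
    intro n hn
    rw [hN, Finset.mem_image] at hn
    obtain ⟨m, hm, hm'⟩ := hn
    exact ⟨m, hm, hm'⟩
  choose! r hr hr' using h1
  have h2 : ∀ n ∈ N, ∃ c : ℚ, ∀ᶠ k in (hyperfilter ℕ : Filter ℕ),
      (phi u l k f).coeff n = c * mon u (r n) k := by
    intro n hn
    obtain ⟨c, hc⟩ := coeff_form h f hf (r n) (hf (hr n hn))
    rw [hr' n hn] at hc
    exact ⟨c, hc⟩
  choose! c hc using h2
  have h3 : ∀ᶠ k in (hyperfilter ℕ : Filter ℕ), ∀ n ∈ N,
      (phi u l k f).coeff n = c n * mon u (r n) k := (Filter.eventually_all_finset _).2 hc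
  have hsum : ∀ k, (phi u l k f).eval 1 = ∑ n ∈ N, (phi u l k f).coeff n := by
    intro k
    rw [eval_phi, hN]
    rw [← Finset.sum_fiberwise_of_maps_to (g := wt l) (t := f.support.image (wt l))
      (fun m hm => Finset.mem_image_of_mem _ hm)]
    exact Finset.sum_congr rfl fun n _ => (coeff_phi u l k f n).symm
  have hinj : Set.InjOn r (N : Set ℕ) := by
    intro a ha b hb hab
    rw [← hr' a ha, ← hr' b hb, hab]
  have hc0 : ∀ n ∈ N, c n = 0 := by
    by_contra hcon
    push Not at hcon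
    obtain ⟨n₀, hn₀, hcn₀⟩ := hcon
    set G : Finset (σ →₀ ℕ) := (N.filter (fun n => c n ≠ 0)).image r with hG
    have hGN : G.Nonempty := ⟨r n₀, by
      rw [hG]
      exact Finset.mem_image_of_mem _ (Finset.mem_filter.2 ⟨hn₀, hcn₀⟩)⟩
    obtain ⟨m, hm, m', hm', hne, hrel⟩ := h.star G (fun m => c (wt l m)) hGN (by
      intro m hm
      rw [hG, Finset.mem_image] at hm
      obtain ⟨n, hn, rfl⟩ := hm
      rw [Finset.mem_filter] at hn
      rw [hr' n hn.1]
      exact hn.2) (by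
      filter_upwards [h0, h3] with k hk hk3
      rw [hsum] at hk
      rw [hG, Finset.sum_image (by
        intro a ha b hb hab
        exact hinj (Finset.mem_filter.1 ha).1 (Finset.mem_filter.1 hb).1 hab)]
      rw [Finset.sum_filter]
      refine Eq.trans (Finset.sum_congr rfl fun n hn => ?_) hk
      rw [hk3 n hn, hr' n hn]
      split_ifs with h4
      · rfl
      · push Not at h4
        rw [h4, zero_mul])
    rw [hG, Finset.mem_image] at hm hm'
    obtain ⟨n, hn, rfl⟩ := hm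
    obtain ⟨n', hn', rfl⟩ := hm'
    rw [Finset.mem_filter] at hn hn'
    have h5 := (h.wt (r n) (hf (hr n hn.1)) (r n') (hf (hr n' hn'.1))).2 hrel
    rw [hr' n hn.1, hr' n' hn'.1] at h5
    exact hne (by rw [h5])
  filter_upwards [h3] with k hk
  ext n
  rw [Polynomial.coeff_zero]
  by_cases hn : n ∈ N
  · rw [hk n hn, hc0 n hn, zero_mul]
  · rw [coeff_phi]
    rw [Finset.filter_eq_empty_iff.2, Finset.sum_empty]
    intro m hm hmn
    exact hn (by rw [hN, Finset.mem_image]; exact ⟨m, hm, hmn⟩)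

/-- the derivation with `x_j ↦ l_j x_j` -/
noncomputable def der (l : σ → ℕ) (f : MvPolynomial σ ℚ) : MvPolynomial σ ℚ :=
  ∑ m ∈ f.support, MvPolynomial.monomial m ((wt l m : ℚ) * f.coeff m)

theorem phi_der (u : ℕ → σ → ℕ) (l : σ → ℕ) (k : ℕ) (f : MvPolynomial σ ℚ) :
    phi u l k (der l f) = X * derivative (phi u l k f) := by
  unfold der
  rw [map_sum, phi_eq, derivative_sum, Finset.mul_sum]
  refine Finset.sum_congr rfl fun m _ => ?_
  rw [phi_monomial, derivative_C_mul_X_pow]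
  rcases Nat.eq_zero_or_pos (wt l m) with h3 | h3
  · rw [h3]
    simp
  · have h4 : (X : ℚ[X]) * X ^ (wt l m - 1) = X ^ wt l m := by
      rw [← pow_succ']
      congr 1
      omega
    rw [← h4]
    have h5 : (wt l m : ℚ) * f.coeff m * mon u m k = f.coeff m * mon u m k * (wt l m : ℚ) := by ring
    rw [h5]
    ring

theorem support_der (l : σ → ℕ) (f : MvPolynomial σ ℚ) : (der l f).support ⊆ f.support := by
  classical
  unfold der
  refine (MvPolynomial.support_sum).trans ?_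
  intro m hm
  rw [Finset.mem_biUnion] at hm
  obtain ⟨m', hm', h⟩ := hm
  have h1 := MvPolynomial.support_monomial_subset h
  rw [Finset.mem_singleton] at h1
  rwa [h1]

theorem mem_support_mul {P R : MvPolynomial σ ℚ} {m : σ →₀ ℕ} (hm : m ∈ (P * R).support) :
    ∃ m₁ ∈ P.support, ∃ m₂ ∈ R.support, m₁ + m₂ = m := by
  classical
  rw [MvPolynomial.mem_support_iff, MvPolynomial.coeff_mul] at hm
  obtain ⟨x, hx, hx'⟩ := Finset.exists_ne_zero_of_sum_ne_zero hm
  exact ⟨x.1, MvPolynomial.mem_support_iff.2 (left_ne_zero_of_mul hx'), x.2,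
    MvPolynomial.mem_support_iff.2 (right_ne_zero_of_mul hx'), Finset.HasAntidiagonal.mem_antidiagonal.1 hx⟩

/-- the sums of the exponents of `P` and of `R` -/
noncomputable def sumSupp (P R : MvPolynomial σ ℚ) : Finset (σ →₀ ℕ) := by
  classical
  exact (P.support ×ˢ R.support).image (fun x => x.1 + x.2)

theorem support_wr (l : σ → ℕ) (P R : MvPolynomial σ ℚ) :
    (P * der l R - R * der l P).support ⊆ sumSupp P R := by
  classical
  intro m hm
  unfold sumSupp
  rw [Finset.mem_image]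
  by_cases h : m ∈ (P * der l R).support
  · obtain ⟨a, ha, b, hb, hab⟩ := mem_support_mul h
    exact ⟨(a, b), Finset.mem_product.2 ⟨ha, support_der l R hb⟩, hab⟩
  · have h' : m ∈ (R * der l P).support := by
      rw [MvPolynomial.notMem_support_iff] at h
      rw [MvPolynomial.mem_support_iff, MvPolynomial.coeff_sub, h, zero_sub, neg_ne_zero] at hm
      exact MvPolynomial.mem_support_iff.2 hm
    obtain ⟨a, ha, b, hb, hab⟩ := mem_support_mul h'
    exact ⟨(b, a), Finset.mem_product.2 ⟨support_der l P hb, ha⟩, by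
      rw [← hab]
      exact add_comm _ _⟩

end Pool.Agent.H577.FD
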