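import Mathlib

set_option autoImplicit false

/-! # Statements for the project FD -/

namespace Pool.Agent.H577.FD

open Filter Finset

/-- `m` is positive and all its prime factors are in `S`. -/
def IsSUnit (S : Finset ℕ) (m : ℕ) : Prop := 0 < m ∧ ∀ p : ℕ, p.Prime → p ∣ m → p ∈ S

/-- the value of the monomial with exponents `m` at the `k`-th point -/
def mon {σ : Type} [Fintype σ] (u : ℕ → σ → ℕ) (m : σ →₀ ℕ) (k : ℕ) : ℚ :=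
  ∏ j, (u k j : ℚ) ^ m j

/-- two monomials have a constant ratio for almost all indices (with respect to the ultrafilter) -/
def Rel {σ : Type} [Fintype σ] (u : ℕ → σ → ℕ) (m m' : σ →₀ ℕ) : Prop :=
  ∃ ρ : ℚ, ∀ᶠ k in (hyperfilter ℕ : Filter ℕ), mon u m k = ρ * mon u m' k

/-- the weight of a monomial -/
def wt {σ : Type} [Fintype σ] (l : σ → ℕ) (m : σ →₀ ℕ) : ℕ := ∑ j, l j * m j

/-- vanishing sums of monomials in `S`-units (from the theorem on `S`-unit equations, see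
`Pool.Agent.H577.GS.ratios`) -/
def S_STAR : Prop := ∀ (S : Finset ℕ) {σ : Type} [Fintype σ] (u : ℕ → σ → ℕ),
  (∀ k j, IsSUnit S (u k j)) → ∀ (F : Finset (σ →₀ ℕ)) (c : (σ →₀ ℕ) → ℚ),
  F.Nonempty → (∀ m ∈ F, c m ≠ 0) →
  (∀ᶠ k in (hyperfilter ℕ : Filter ℕ), ∑ m ∈ F, c m * mon u m k = 0) →
  ∃ m ∈ F, ∃ m' ∈ F, m ≠ m' ∧ Rel u m m'

/-- the choice of the weights -/
def S_LAM : Prop := ∀ (S : Finset ℕ) {σ : Type} [Fintype σ] (u : ℕ → σ → ℕ),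
  (∀ k j, IsSUnit S (u k j)) → ∀ (F : Finset (σ →₀ ℕ)),
  ∃ l : σ → ℕ, ∀ m ∈ F, ∀ m' ∈ F, (wt l m = wt l m' ↔ Rel u m m')

/-- the arithmetic: the bound if the Wronskian does not vanish -/
def S_DIV : Prop := ∀ (A B C X Y Z GX GY GZ RX RY RZ s : ℕ) (DX DY DZ : ℤ) (L Q : ℝ) (S : Finset ℕ),
  0 < A → 0 < B → 0 < C → 0 < X → 0 < Y → 0 < Z → (∀ p ∈ S, p.Prime) → s = ∏ p ∈ S, p →
  A * X + B * Y = C * Z → (A : ℤ) * DX + B * DY = C * DZ →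
  X = GX * RX → Y = GY * RY → Z = GZ * RZ →
  (GX : ℤ) ∣ DX → (GY : ℤ) ∣ DY → (GZ : ℤ) ∣ DZ →
  (∀ p : ℕ, p.Prime → p ∣ X → p ∉ S → p ∣ RX) → (∀ p : ℕ, p.Prime → p ∣ Y → p ∉ S → p ∣ RY) →
  (Nat.gcd X Y : ℝ) ≤ Q * ((∏ p ∈ (Nat.gcd X Y).primeFactors, p : ℕ) : ℝ) →
  0 ≤ L → |(DX : ℝ)| ≤ L * X → |(DY : ℝ)| ≤ L * Y → |(DZ : ℝ)| ≤ L * Z →
  (X : ℤ) * DY - Y * DX ≠ 0 →
  (Z : ℝ) ≤ 2 * A * B * C * L * Q * s * (RX * RY * RZ)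

/-- the arithmetic: the bound if `X` and `Y` are proportional -/
def S_PROP : Prop := ∀ (a b X Y RX s : ℕ) (Q : ℝ) (S : Finset ℕ),
  0 < a → 0 < b → Nat.Coprime a b → 0 < X → 0 < Y → b * X = a * Y →
  (∀ p ∈ S, p.Prime) → s = ∏ p ∈ S, p → 0 < RX →
  (∀ p : ℕ, p.Prime → p ∣ X → p ∉ S → p ∣ RX) →
  (Nat.gcd X Y : ℝ) ≤ Q * ((∏ p ∈ (Nat.gcd X Y).primeFactors, p : ℕ) : ℝ) →
  (X : ℝ) ≤ a * Q * s * RX

end Pool.Agent.H577.FD
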