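import Pool.Agent.H577.FD.Wr

set_option autoImplicit false

/-! # The polynomials of the terms -/

namespace Pool.Agent.H577.FD

open Filter Finset Polynomial

/-- `v₀ ∏_a (b + a)^(e a)` -/
def val (N : ℕ) (e : ℕ → ℕ) (v₀ b : ℕ) : ℕ := v₀ * ∏ a ∈ range (N + 1), (b + a) ^ e a

/-- the repeated part -/
def gpart (N : ℕ) (e : ℕ → ℕ) (v₀ b : ℕ) : ℕ := v₀ * ∏ a ∈ range (N + 1), (b + a) ^ (e a - 1)

/-- the product of the different factors -/
def rpart (N : ℕ) (e : ℕ → ℕ) (b : ℕ) : ℕ := ∏ a ∈ range (N + 1), (b + a) ^ min (e a) 1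

theorem val_eq (N : ℕ) (e : ℕ → ℕ) (v₀ b : ℕ) :
    val N e v₀ b = gpart N e v₀ b * rpart N e b := by
  unfold val gpart rpart
  rw [mul_assoc, ← Finset.prod_mul_distrib]
  congr 1
  refine Finset.prod_congr rfl fun a _ => ?_
  rw [← pow_add]
  congr 1
  omega

theorem val_pos {N : ℕ} {e : ℕ → ℕ} {v₀ b : ℕ} (hv : 0 < v₀) (hb : 0 < b) : 0 < val N e v₀ b :=
  Nat.mul_pos hv (Finset.prod_pos fun a _ => pow_pos (by omega) _)

theorem rpart_pos {N : ℕ} {e : ℕ → ℕ} {b : ℕ} (hb : 0 < b) : 0 < rpart N e b :=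
  Finset.prod_pos fun a _ => pow_pos (by omega) _

theorem prime_dvd_val {N : ℕ} {e : ℕ → ℕ} {v₀ b p : ℕ} {S : Finset ℕ} (hv : IsSUnit S v₀)
    (hp : p.Prime) (h : p ∣ val N e v₀ b) (hpS : p ∉ S) : p ∣ rpart N e b := by
  unfold val at h
  rcases (Nat.Prime.dvd_mul hp).1 h with h1 | h1
  · exact absurd (hv.2 p hp h1) hpS
  · rw [(Nat.prime_iff.1 hp).dvd_finsetProd_iff] at h1
    obtain ⟨a, ha, h2⟩ := h1
    have h3 : e a ≠ 0 := by
      intro h0
      rw [h0, pow_zero] at h2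
      exact hp.one_lt.ne' (Nat.dvd_one.1 h2)
    have h4 := hp.dvd_of_dvd_pow h2
    refine dvd_trans ?_ (Finset.dvd_prod_of_mem _ ha)
    rw [show min (e a) 1 = 1 by omega, pow_one]
    exact h4

/-- the polynomial of a term -/
noncomputable def tpoly (s : Finset ℕ) (e : ℕ → ℕ) (v₀ l₀ : ℕ) (q : ℤ[X]) : ℤ[X] :=
  C (v₀ : ℤ) * X ^ l₀ * ∏ a ∈ s, (q + C (a : ℤ)) ^ e a

theorem tpoly_spec (s : Finset ℕ) (e : ℕ → ℕ) (v₀ l₀ b K : ℕ) (q : ℤ[X])
    (hq : q.eval 1 = b) (hq' : |(derivative q).eval 1| ≤ K * b) :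
    (tpoly s e v₀ l₀ q).eval 1 = ((v₀ * ∏ a ∈ s, (b + a) ^ e a : ℕ) : ℤ) ∧
    ((v₀ * ∏ a ∈ s, (b + a) ^ (e a - 1) : ℕ) : ℤ) ∣ (derivative (tpoly s e v₀ l₀ q)).eval 1 ∧
    |(derivative (tpoly s e v₀ l₀ q)).eval 1| ≤
      ((l₀ + K * ∑ a ∈ s, e a : ℕ) : ℤ) * ((v₀ * ∏ a ∈ s, (b + a) ^ e a : ℕ) : ℤ) := by
  classical
  induction s using Finset.induction_on with
  | empty =>
    unfold tpoly
    simp only [Finset.prod_empty, mul_one, Finset.sum_empty, mul_zero, add_zero]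
    refine ⟨by simp, ?_, ?_⟩
    · rw [derivative_C_mul_X_pow]
      simp
    · rw [derivative_C_mul_X_pow]
      simp only [eval_mul, eval_C, eval_pow, eval_X, one_pow, mul_one]
      rw [abs_of_nonneg (by positivity)]
      exact (mul_comm _ _).le
  | insert a s ha ih =>
    obtain ⟨h1, h2, h3⟩ := ih
    have hfac : tpoly (insert a s) e v₀ l₀ q = tpoly s e v₀ l₀ q * (q + C (a : ℤ)) ^ e a := by
      unfold tpoly
      rw [Finset.prod_insert ha]
      ring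
    have hder : (derivative (tpoly (insert a s) e v₀ l₀ q)).eval 1 =
        (derivative (tpoly s e v₀ l₀ q)).eval 1 * ((b + a : ℕ) : ℤ) ^ e a +
        (tpoly s e v₀ l₀ q).eval 1 *
          (e a * ((b + a : ℕ) : ℤ) ^ (e a - 1) * (derivative q).eval 1) := by
      rw [hfac, derivative_mul, derivative_pow, derivative_add, derivative_C, add_zero]
      simp only [eval_add, eval_mul, eval_pow, eval_C, hq]
      push_cast
      rfl
    have hprod : (∏ x ∈ insert a s, (b + x) ^ e x) = (∏ x ∈ s, (b + x) ^ e x) * (b + a) ^ e a := by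
      rw [Finset.prod_insert ha, mul_comm]
    have hprod' : (∏ x ∈ insert a s, (b + x) ^ (e x - 1)) =
        (∏ x ∈ s, (b + x) ^ (e x - 1)) * (b + a) ^ (e a - 1) := by
      rw [Finset.prod_insert ha, mul_comm]
    refine ⟨?_, ?_, ?_⟩
    · rw [hfac, eval_mul, h1, hprod, eval_pow, eval_add, eval_C, hq]
      push_cast
      ring
    · rw [hder, hprod', ← mul_assoc]
      push_cast at h2 ⊢
      refine dvd_add (mul_dvd_mul h2 (pow_dvd_pow _ (Nat.sub_le _ _))) ?_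
      rw [h1]
      push_cast
      have h4 : ((v₀ : ℤ) * ∏ x ∈ s, ((b : ℤ) + x) ^ (e x - 1)) ∣
          (v₀ : ℤ) * ∏ x ∈ s, ((b : ℤ) + x) ^ e x :=
        mul_dvd_mul_left _ (Finset.prod_dvd_prod_of_dvd _ _ fun x _ =>
          pow_dvd_pow _ (Nat.sub_le _ _))
      refine mul_dvd_mul h4 ?_
      exact Dvd.intro_left _ (by ring : (e a : ℤ) * (derivative q).eval 1 *
        ((b : ℤ) + a) ^ (e a - 1) = _)
    · rw [hder, hprod, Finset.sum_insert ha]
      obtain ⟨V, hV⟩ : ∃ V : ℕ, V = v₀ * ∏ x ∈ s, (b + x) ^ e x := ⟨_, rfl⟩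
      rw [← hV] at h1 h3
      rw [← mul_assoc v₀ (∏ x ∈ s, (b + x) ^ e x) ((b + a) ^ e a), ← hV, h1]
      obtain ⟨D, hD⟩ : ∃ D : ℤ, D = (derivative (tpoly s e v₀ l₀ q)).eval 1 := ⟨_, rfl⟩
      obtain ⟨d, hd⟩ : ∃ d : ℤ, d = (derivative q).eval 1 := ⟨_, rfl⟩
      rw [← hD] at h3 ⊢
      rw [← hd] at hq' ⊢
      obtain ⟨L, hL⟩ : ∃ L : ℕ, L = l₀ + K * ∑ x ∈ s, e x := ⟨_, rfl⟩
      rw [← hL] at h3
      have hLL : l₀ + K * (e a + ∑ x ∈ s, e x) = L + K * e a := by rw [hL]; ring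
      rw [hLL]
      obtain ⟨y, hy⟩ : ∃ y : ℕ, y = b + a := ⟨_, rfl⟩
      rw [← hy]
      have hby : b ≤ y := by omega
      have h5 : |D * (y : ℤ) ^ e a| ≤ (L : ℤ) * V * (y : ℤ) ^ e a := by
        rw [abs_mul, abs_pow, Nat.abs_cast]
        exact mul_le_mul_of_nonneg_right h3 (by positivity)
      have h6 : |(V : ℤ) * (e a * (y : ℤ) ^ (e a - 1) * d)| ≤
          (K : ℤ) * e a * V * (y : ℤ) ^ e a := by
        rw [abs_mul, abs_mul, abs_mul, abs_pow, Nat.abs_cast, Nat.abs_cast, Nat.abs_cast]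
        rcases Nat.eq_zero_or_pos (e a) with h0 | h0
        · rw [h0]
          simp
        · have h7 : (y : ℤ) ^ e a = (y : ℤ) ^ (e a - 1) * y := by
            rw [← pow_succ]
            congr 1
            omega
          rw [h7]
          have h8 : |d| ≤ K * y := hq'.trans (by
            exact mul_le_mul_of_nonneg_left (by exact_mod_cast hby) (by positivity))
          calc (V : ℤ) * (e a * (y : ℤ) ^ (e a - 1) * |d|)
              ≤ (V : ℤ) * (e a * (y : ℤ) ^ (e a - 1) * (K * y)) := by gcongr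
            _ = _ := by ring
      calc |D * (y : ℤ) ^ e a + V * (e a * (y : ℤ) ^ (e a - 1) * d)|
          ≤ |D * (y : ℤ) ^ e a| + |(V : ℤ) * (e a * (y : ℤ) ^ (e a - 1) * d)| := abs_add_le _ _
        _ ≤ (L : ℤ) * V * (y : ℤ) ^ e a + (K : ℤ) * e a * V * (y : ℤ) ^ e a := add_le_add h5 h6
        _ = _ := by push_cast; ring

variable {r : ℕ}

/-- the base as a polynomial in the variables -/
noncomputable def lin (ε : Fin 3 → Fin r → ℤ) (w : Fin 3) :
    MvPolynomial (Fin 3 × Option (Fin r)) ℚ :=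
  ∑ j, MvPolynomial.C (ε w j : ℚ) * MvPolynomial.X (w, some j)

/-- the term as a polynomial in the variables -/
noncomputable def term (N : ℕ) (e : Fin 3 → ℕ → ℕ) (ε : Fin 3 → Fin r → ℤ) (w : Fin 3) :
    MvPolynomial (Fin 3 × Option (Fin r)) ℚ :=
  MvPolynomial.X (w, none) * ∏ a ∈ range (N + 1), (lin ε w + MvPolynomial.C (a : ℚ)) ^ e w a

/-- the base as a polynomial in `T` -/
noncomputable def qpoly (ε : Fin 3 → Fin r → ℤ) (u : ℕ → Fin 3 × Option (Fin r) → ℕ)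
    (l : Fin 3 × Option (Fin r) → ℕ) (k : ℕ) (w : Fin 3) : ℤ[X] :=
  ∑ j, C (ε w j * u k (w, some j)) * X ^ l (w, some j)

theorem phi_term (N : ℕ) (e : Fin 3 → ℕ → ℕ) (ε : Fin 3 → Fin r → ℤ)
    (u : ℕ → Fin 3 × Option (Fin r) → ℕ) (l : Fin 3 × Option (Fin r) → ℕ) (k : ℕ) (w : Fin 3) :
    phi u l k (term N e ε w) =
      (tpoly (range (N + 1)) (e w) (u k (w, none)) (l (w, none)) (qpoly ε u l k w)).map
        (Int.castRingHom ℚ) := by
  unfold term tpoly lin qpoly phi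
  simp only [map_mul, map_prod, map_pow, map_add, map_sum, MvPolynomial.aeval_X,
    MvPolynomial.aeval_C, Polynomial.map_mul, Polynomial.map_prod, Polynomial.map_pow,
    Polynomial.map_add, Polynomial.map_sum, Polynomial.map_C, Polynomial.map_X]
  congr 1
  refine Finset.prod_congr rfl fun a _ => ?_
  congr 2
  · refine Finset.sum_congr rfl fun j _ => ?_
    rw [← mul_assoc]
    congr 1

end Pool.Agent.H577.FD
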