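import Pool.Agent.H577.FD.Poly

set_option autoImplicit false

/-! # The Wronskian -/

namespace Pool.Agent.H577.FD

open Filter Finset Polynomial

variable {σ : Type} [Fintype σ]

/-- vanishing Wronskian: proportional polynomials -/
theorem prop_of_wronskian {P R : ℚ[X]} (hR : R ≠ 0)
    (h : P * derivative R = R * derivative P) : ∃ c : ℚ, P = C c * R := by
  classical
  by_cases hP : P = 0
  · exact ⟨0, by rw [hP, C_0, zero_mul]⟩
  set g := EuclideanDomain.gcd P R with hg
  have hg0 : g ≠ 0 := fun h0 => hR (EuclideanDomain.gcd_eq_zero_iff.1 h0).2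
  obtain ⟨P₁, hP₁⟩ := EuclideanDomain.gcd_dvd_left P R
  obtain ⟨R₁, hR₁⟩ := EuclideanDomain.gcd_dvd_right P R
  rw [← hg] at hP₁ hR₁
  have hcop : IsCoprime P₁ R₁ := by
    obtain ⟨a, b, hab⟩ : ∃ a b, g = P * a + R * b := ⟨_, _, EuclideanDomain.gcd_eq_gcd_ab P R⟩
    refine ⟨a, b, mul_left_cancel₀ hg0 ?_⟩
    rw [mul_one]
    conv_rhs => rw [hab, hP₁, hR₁]
    ring
  have h1 : wronskian P₁ R₁ = 0 := by
    unfold wronskian
    have h2 : g * g * (P₁ * derivative R₁ - derivative P₁ * R₁) = 0 := by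
      rw [hP₁, hR₁, derivative_mul, derivative_mul] at h
      linear_combination h
    rcases mul_eq_zero.1 h2 with h3 | h3
    · exact absurd (mul_self_eq_zero.1 h3) hg0
    · exact h3
  obtain ⟨h4, h5⟩ := hcop.wronskian_eq_zero_iff.1 h1
  have h6 := derivative_eq_zero.1 h4
  have h7 := derivative_eq_zero.1 h5
  obtain ⟨a, ha⟩ := natDegree_eq_zero.1 h6
  obtain ⟨b, hb⟩ := natDegree_eq_zero.1 h7
  have hb0 : b ≠ 0 := by
    rintro rfl
    rw [C_0] at hb
    rw [← hb, mul_zero] at hR₁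
    exact hR hR₁
  refine ⟨a / b, ?_⟩
  conv_lhs => rw [hP₁, ← ha]
  conv_rhs => rw [hR₁, ← hb]
  rw [mul_comm g (C b), ← mul_assoc, ← C_mul, div_mul_cancel₀ _ hb0, mul_comm]

/-- **the Wronskian does not vanish, or the values are proportional** -/
theorem wronskian_alt {u : ℕ → σ → ℕ} {F : Finset (σ →₀ ℕ)} {l : σ → ℕ} (h : Good u F l)
    (P R : MvPolynomial σ ℚ) (hP : P.support ⊆ F) (hR : R.support ⊆ F)
    (hW : (P * der l R - R * der l P).support ⊆ F)
    (hR0 : ∀ᶠ k in (hyperfilter ℕ : Filter ℕ), (phi u l k R).eval 1 ≠ 0) :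
    (∀ᶠ k in (hyperfilter ℕ : Filter ℕ), (phi u l k P).eval 1 * (derivative (phi u l k R)).eval 1 -
      (phi u l k R).eval 1 * (derivative (phi u l k P)).eval 1 ≠ 0) ∨
    ∃ c : ℚ, ∀ᶠ k in (hyperfilter ℕ : Filter ℕ),
      (phi u l k P).eval 1 = c * (phi u l k R).eval 1 := by
  classical
  by_cases hcase : ∀ᶠ k in (hyperfilter ℕ : Filter ℕ),
      (phi u l k P).eval 1 * (derivative (phi u l k R)).eval 1 -
      (phi u l k R).eval 1 * (derivative (phi u l k P)).eval 1 ≠ 0
  · exact Or.inl hcase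
  right
  rw [← Ultrafilter.eventually_not] at hcase
  have h1 : ∀ᶠ k in (hyperfilter ℕ : Filter ℕ),
      phi u l k (P * der l R - R * der l P) = 0 := by
    refine phi_zero h _ hW ?_
    filter_upwards [hcase] with k hk
    rw [not_not] at hk
    rw [map_sub, map_mul, map_mul, phi_der, phi_der, eval_sub, eval_mul, eval_mul, eval_mul,
      eval_mul, eval_X, one_mul, one_mul]
    exact hk
  have h2 : ∀ᶠ k in (hyperfilter ℕ : Filter ℕ), ∃ c : ℚ, phi u l k P = C c * phi u l k R := by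
    filter_upwards [h1, hR0] with k hk hk0
    refine prop_of_wronskian (fun h0 => hk0 (by rw [h0, eval_zero])) ?_
    rw [map_sub, map_mul, map_mul, phi_der, phi_der] at hk
    have h3 : (X : ℚ[X]) * (phi u l k P * derivative (phi u l k R) -
        phi u l k R * derivative (phi u l k P)) = 0 := by
      linear_combination hk
    rcases mul_eq_zero.1 h3 with h4 | h4
    · exact absurd h4 X_ne_zero
    · exact sub_eq_zero.1 h4
  -- a coefficient of `R` that does not vanish
  have hne : ∃ m₀ ∈ R.support, ∀ᶠ k in (hyperfilter ℕ : Filter ℕ),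
      (phi u l k R).coeff (wt l m₀) ≠ 0 := by
    by_contra hcon
    push Not at hcon
    have h3 : ∀ m ∈ R.support, ∀ᶠ k in (hyperfilter ℕ : Filter ℕ),
        (phi u l k R).coeff (wt l m) = 0 := by
      intro m hm
      exact hcon m hm
    have h5 : ∀ᶠ k in (hyperfilter ℕ : Filter ℕ), ∀ m ∈ R.support,
        (phi u l k R).coeff (wt l m) = 0 := (Filter.eventually_all_finset _).2 h3
    obtain ⟨k, hk, hk0⟩ := (h5.and hR0).exists
    apply hk0
    have h6 : phi u l k R = 0 := by
      ext n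
      rw [Polynomial.coeff_zero]
      by_cases hn : ∃ m ∈ R.support, wt l m = n
      · obtain ⟨m, hm, rfl⟩ := hn
        exact hk m hm
      · rw [coeff_phi, Finset.filter_eq_empty_iff.2, Finset.sum_empty]
        intro m hm hmn
        exact hn ⟨m, hm, hmn⟩
    rw [h6, eval_zero]
  obtain ⟨m₀, hm₀, hne⟩ := hne
  obtain ⟨a, ha⟩ := coeff_form h P hP m₀ (hR hm₀)
  obtain ⟨b, hb⟩ := coeff_form h R hR m₀ (hR hm₀)
  have hb0 : b ≠ 0 := by
    rintro rfl
    obtain ⟨k, hk1, hk2⟩ := (hne.and hb).exists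
    rw [zero_mul] at hk2
    exact hk1 hk2
  refine ⟨a / b, ?_⟩
  filter_upwards [h2, ha, hb] with k hk hak hbk
  obtain ⟨c, hc⟩ := hk
  have h7 : c = a / b := by
    have h8 := congrArg (fun p => Polynomial.coeff p (wt l m₀)) hc
    simp only [coeff_C_mul] at h8
    rw [hak, hbk] at h8
    have h9 := (mon_pos h.pos m₀ k).ne'
    rw [eq_div_iff hb0]
    have h10 : (a - c * b) * mon u m₀ k = 0 := by linear_combination h8
    rcases mul_eq_zero.1 h10 with h11 | h11
    · linarith
    · exact absurd h11 h9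
  rw [hc, eval_mul, eval_C, h7]

end Pool.Agent.H577.FD
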